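import Pool.Agent.Lib.MP_33b3f9_ag.M8.IDefA
import Pool.Agent.Lib.MP_33b3f9_ag.M4.MxDefs

/-!
The interfaces of the unconditional theorem.
-/

set_option autoImplicit false

noncomputable section

namespace M8

open Matrix Pool.Agent.Lib.MP_33b3f9_ag Pool.Agent.M4.Mx

/-- The endomorphism algebra of the abelian variety is generated by `a` and `b`. -/
def EndX (a b : MZ) (τ : Mat) : Prop :=
  ∀ g : MZ, zr g * M4.cst τ = M4.cst τ * zr g → ∃ (d : ℤ) (c : Fin 4 → ℤ), d ≠ 0 ∧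
    d • g = c 0 • (1 : MZ) + c 1 • a + c 2 • b + c 3 • (a * b)

/-- The matrices that commute with `a` and `b` modulo `N`. -/
def CmN (a b : MZ) (N : ℕ) : AddSubgroup MZ where
  carrier := {R | ∀ i j, (N : ℤ) ∣ (R * a - a * R) i j ∧ (N : ℤ) ∣ (R * b - b * R) i j}
  zero_mem' := fun i j => by simp
  add_mem' := fun {R S} hR hS i j => by
    have e : ∀ c : MZ, (R + S) * c - c * (R + S) = (R * c - c * R) + (S * c - c * S) := fun c => by
      rw [add_mul, mul_add]
      abel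
    rw [e, e]
    exact ⟨dvd_add (hR i j).1 (hS i j).1, dvd_add (hR i j).2 (hS i j).2⟩
  neg_mem' := fun {R} hR i j => by
    have e : ∀ c : MZ, -R * c - c * -R = -(R * c - c * R) := fun c => by
      rw [neg_mul, mul_neg]
      abel
    rw [e, e]
    exact ⟨dvd_neg.2 (hR i j).1, dvd_neg.2 (hR i j).2⟩

/-- The integral form of the theorem of Faltings, with a polynomial bound. -/
def FAL (a b : MZ) {K : IntermediateField ℚ ℂ} (r : Rep K) : Prop :=
  ∃ C : ℕ, ∀ N : ℕ, N ≠ 0 → ∀ U : Subgroup (ℂ ≃ₐ[K] ℂ), U.FiniteIndex →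
    (AddSubgroup.closure {R : MZ | ∃ σ ∈ U, Cong r σ N R}).relIndex (CmN a b N) ≤
      (U.index * (2 + Nat.log 2 N)) ^ C

/-- The tangent algebra of the closure of the image contains the symplectic Lie algebra of the eight
dimensional factor, or it contains a cube and the Hodge structure is not generic. -/
def DICH (a b : MZ) (τ : Mat) {K : IntermediateField ℚ ℂ} (r : Rep K) : Prop :=
  ∀ (l : ℕ) [Fact l.Prime] (U : Subgroup (ℂ ≃ₐ[K] ℂ)), U.FiniteIndex → ∃ s : Mor a b (Om l),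
    (∀ Z, Sp (Matrix.J (Fin 4) (Om l)) Z → s.em Z ∈ tng (imU (r l) U)) ∨
    ((∃ f : Fr ω (Om l), ∀ i, s.em (f.u i (bas _ 1)) ∈ tng (imU (r l) U) ∧
      s.em (f.u i (bas _ 2)) ∈ tng (imU (r l) U)) ∧ ¬ GEN a b (M4.cst τ))

end M8
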