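import Pool.Agent.Lib.MP_33b3f9_ag.M8.P.LastA
import Pool.Agent.Lib.MP_33b3f9_ag.M8.Tr
import Pool.Agent.Lib.MP_33b3f9_ag.M8.E3.Cst

/-!
The Mumford-Tate conjecture from the dichotomy.
-/

set_option autoImplicit false

noncomputable section

namespace M8

open M4 Matrix Function Pool.Agent.Lib.MP_33b3f9_ag Pool.Agent.M4.Mx

/-- The determinant takes infinitely many values on a subgroup of finite index. -/
theorem det_inf (K : IntermediateField ℚ ℂ) [FiniteDimensional ℚ K] {ℓ : ℕ} [Fact ℓ.Prime]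
    (r : (ℂ ≃ₐ[K] ℂ) →* GL ν ℤ_[ℓ])
    (hmu : ∀ σ : ℂ ≃ₐ[K] ℂ, ∃ c : ℤ_[ℓ],
      (r σ : Matrix ν ν ℤ_[ℓ])ᵀ * Matrix.J (Fin 8) ℤ_[ℓ] * (r σ : Matrix ν ν ℤ_[ℓ]) =
        c • Matrix.J (Fin 8) ℤ_[ℓ] ∧
      ∀ (n : ℕ) (ζ : ℂ), ζ ^ ℓ ^ n = 1 → σ ζ = ζ ^ (PadicInt.toZModPow n c).val)
    (U : Subgroup (ℂ ≃ₐ[K] ℂ)) [U.FiniteIndex] :
    ((fun σ => GeneralLinearGroup.det (r σ)) '' U).Infinite := by
  classical
  intro hfin
  let d := GeneralLinearGroup.det.comp r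
  have hp : ℓ.Prime := Fact.out
  have hU : (d.ker ⊓ U).FiniteIndex := by
    have : Finite (U.map d) := hfin.to_subtype
    refine ⟨?_⟩
    rw [← Subgroup.relIndex_mul_index inf_le_right, Subgroup.inf_relIndex_right,
      Subgroup.relIndex_ker]
    exact mul_ne_zero Nat.card_pos.ne' Subgroup.FiniteIndex.index_ne_zero
  have := Fintype.ofFinite ((ℂ ≃ₐ[K] ℂ) ⧸ (d.ker ⊓ U))
  obtain ⟨n, hn⟩ : ∃ n, n = Module.finrank ℚ K *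
    (Fintype.card ((ℂ ≃ₐ[K] ℂ) ⧸ (d.ker ⊓ U)) * 16) := ⟨_, rfl⟩
  have h0 : 0 < ℓ ^ (n + 1) := pow_pos hp.pos _
  have hζ := Complex.isPrimitiveRoot_exp _ h0.ne'
  generalize Complex.exp _ = ζ at hζ
  have hi : IsIntegral K ζ := (hζ.isIntegral h0).tower_top
  have h1 : ((minpoly K ζ).rootSet ℂ).toFinset ⊆
      (Finset.univ ×ˢ (Polynomial.nthRoots 16 (1 : ℤ_[ℓ])).toFinset).image
        fun q : ((ℂ ≃ₐ[K] ℂ) ⧸ (d.ker ⊓ U)) × ℤ_[ℓ] =>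
          q.1.out (ζ ^ (PadicInt.toZModPow (n + 1) q.2).val) := by
    intro y hy
    obtain ⟨σ, rfl⟩ := exists_aut K hi
      (Polynomial.aeval_eq_zero_of_mem_rootSet (Set.mem_toFinset.1 hy))
    obtain ⟨τ, hτ⟩ := QuotientGroup.mk_out_eq_mul (d.ker ⊓ U) σ
    obtain ⟨c, h1, h2⟩ := hmu (τ⁻¹ : (d.ker ⊓ U : Subgroup _)).1
    have hd : (r (τ⁻¹ : (d.ker ⊓ U : Subgroup _)).1 : Matrix ν ν ℤ_[ℓ]).det = 1 :=
      congrArg Units.val τ⁻¹.2.1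
    have h3 := congrArg Matrix.det h1
    rw [det_mul, det_mul, det_transpose, hd, one_mul, mul_one, det_smul,
      show Fintype.card ν = 16 by simp] at h3
    have h4 : c ^ 16 = 1 := mul_right_cancel₀ (Matrix.isUnit_det_J (Fin 8) ℤ_[ℓ]).ne_zero
      (h3.symm.trans (one_mul _).symm)
    refine Finset.mem_image.2 ⟨(σ, c), ?_, ?_⟩
    · simp [h4]
    · simp only [← h2 _ ζ hζ.pow_eq_one, hτ]
      simp
  have h2 : (minpoly K ζ).natDegree ≤ Fintype.card ((ℂ ≃ₐ[K] ℂ) ⧸ (d.ker ⊓ U)) * 16 := by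
    rw [← Polynomial.card_rootSet_eq_natDegree (K := ℂ) (minpoly.irreducible hi).separable
      (IsAlgClosed.splits _), ← Set.toFinset_card]
    refine (Finset.card_le_card h1).trans (Finset.card_image_le.trans ?_)
    rw [Finset.card_product, Finset.card_univ]
    exact Nat.mul_le_mul_left _ ((Multiset.toFinset_card_le _).trans (Polynomial.card_nthRoots _ _))
  have h3 := (mxcyc_deg K hi).trans (Nat.mul_le_mul_left _ h2)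
  rw [← hn, ← Polynomial.cyclotomic_eq_minpoly_rat hζ h0, Polynomial.natDegree_cyclotomic,
    Nat.totient_prime_pow_succ hp] at h3
  exact absurd ((Nat.le_mul_of_pos_right _ (Nat.sub_pos_of_lt hp.one_lt)).trans h3)
    (not_le.2 (Nat.lt_pow_self hp.one_lt))

theorem mcl_zcl {ℓ : ℕ} [Fact ℓ.Prime] {Γ : Type} [Group Γ] (r : Γ →* GL ν ℤ_[ℓ]) (U : Subgroup Γ)
    {g : GL ν (Om ℓ)} (hg : (g : Matrix ν ν (Om ℓ)) ∈ mcl (imU r U : Set _)) :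
    g ∈ zcl (Om ℓ) ((fun σ => Pool.Agent.M8.toQ (r σ)) '' U) := by
  intro P hP
  have h1 := hg (MvPolynomial.map (algebraMap ℚ_[ℓ] (Om ℓ)) P) (by
    rintro _ ⟨σ, hσ, rfl⟩
    rw [evalM, MvPolynomial.aeval_map_algebraMap]
    have h2 := MvPolynomial.comp_aeval_apply
      (fun p : ν × ν => (Pool.Agent.M8.toQ (r σ) : Matrix ν ν ℚ_[ℓ]) p.1 p.2)
      (Algebra.ofId ℚ_[ℓ] (Om ℓ)) P
    have h3 := hP _ ⟨σ, hσ, rfl⟩
    rw [evalM] at h3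
    rw [h3, map_zero] at h2
    exact h2.symm)
  rwa [evalM, MvPolynomial.aeval_map_algebraMap] at h1

variable {τ : Mat} {a b : MZ} {m n : ℕ}

/-- The closure of the image is the Mumford-Tate group. -/
theorem last (K : IntermediateField ℚ ℂ) [FiniteDimensional ℚ K] {ℓ : ℕ} [Fact ℓ.Prime]
    (ρ : (ℂ ≃ₐ[K] ℂ) →* GL ν ℤ_[ℓ]) (hP : PEL a b m n) (hτ : τ ∈ FX a b)
    (hmu : ∀ σ : ℂ ≃ₐ[K] ℂ, ∃ c : ℤ_[ℓ],
      (ρ σ : Matrix ν ν ℤ_[ℓ])ᵀ * Matrix.J (Fin 8) ℤ_[ℓ] * (ρ σ : Matrix ν ν ℤ_[ℓ]) =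
        c • Matrix.J (Fin 8) ℤ_[ℓ] ∧
      ∀ (n : ℕ) (ζ : ℂ), ζ ^ ℓ ^ n = 1 → σ ζ = ζ ^ (PadicInt.toZModPow n c).val)
    (U : Subgroup (ℂ ≃ₐ[K] ℂ)) [U.FiniteIndex] (s : Mor a b (Om ℓ))
    (hD : (∀ Z, Sp (Matrix.J (Fin 4) (Om ℓ)) Z → s.em Z ∈ tng (imU ρ U)) ∨
      ((∃ f : Fr ω (Om ℓ), ∀ i, s.em (f.u i (bas _ 1)) ∈ tng (imU ρ U) ∧
        s.em (f.u i (bas _ 2)) ∈ tng (imU ρ U)) ∧ ¬ GEN a b (cst τ)))
    (hsub : (fun σ => Pool.Agent.M8.toQ (ρ σ)) '' U ⊆ zeroSet ℚ_[ℓ] (mtEqns (cst τ))) :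
    zcl (Om ℓ) ((fun σ => Pool.Agent.M8.toQ (ρ σ)) '' U) =
      zeroSet (Om ℓ) (mtEqns (cst τ)) := by
  have hII := E3.cst_sq hτ.1
  have hsp : Sp (J (Fin 8) ℝ) (cst τ) := E3.cst_sp hτ.1
  obtain ⟨ha, hb⟩ := (hP.fx_iff hτ.1).1 hτ
  generalize cst τ = I at *
  have hd : (J (Fin 8) ℚ).det ≠ 0 := (isUnit_det_J (Fin 8) ℚ).ne_zero
  have hd4 : (J (Fin 4) (Om ℓ)).det ≠ 0 := (isUnit_det_J _ _).ne_zero
  have hJ0 : J (Fin 8) ℚ ≠ 0 := fun h => hd (by rw [h, det_zero])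
  have hIJ : Iᵀ * (J (Fin 8) ℚ).map (Rat.cast : ℚ → ℝ) * I =
      (J (Fin 8) ℚ).map (Rat.cast : ℚ → ℝ) := by
    rw [show (J (Fin 8) ℚ).map (Rat.cast : ℚ → ℝ) = J (Fin 8) ℝ from map_J _ (algebraMap ℚ ℝ),
      eq_neg_of_add_eq_zero_left hsp, Matrix.neg_mul, Matrix.mul_assoc, hII, Matrix.mul_neg,
      neg_neg, Matrix.mul_one]
  have hinj : Injective (toOm ℓ) :=
    (algebraMap ℚ_[ℓ] (Om ℓ)).injective.comp Subtype.val_injective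
  have hdet : ∀ σ, ((ρ σ : Matrix ν ν ℤ_[ℓ]).map (toOm ℓ)).det =
      toOm ℓ (GeneralLinearGroup.det (ρ σ) : ℤ_[ℓ]ˣ) := fun σ => ((toOm ℓ).map_det _).symm
  have hle : imU ρ U ≤ mtMon (Om ℓ) I := by
    rintro _ ⟨σ, hσ, rfl⟩
    refine ⟨by rw [hdet]; exact (map_ne_zero_iff _ hinj).2 (Units.ne_zero _), fun P hP => ?_⟩
    exact (evalM_map (algebraMap ℚ_[ℓ] (Om ℓ)) (Pool.Agent.M8.toQ (ρ σ) : Matrix ν ν ℚ_[ℓ]) P).trans
      (by rw [hsub ⟨σ, hσ, rfl⟩ P hP, map_zero])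
  have hem : ∀ {t : Matrix ν ν (Om ℓ)}, (∀ P ∈ mtEqns I, evalM t P = 0) → s.em (s.pr t) = t :=
    fun ht => s.em_pr (mt_comm ha ht) (mt_comm hb ht)
  have hde : ∀ {t : Matrix ω ω (Om ℓ)}, (s.em t).det ≠ 0 → t.det ≠ 0 := fun h h0 =>
    h (by rw [s.det_em, h0, zero_pow two_ne_zero])
  have hsim : ∀ t : Matrix ω ω (Om ℓ), (∀ P ∈ mtEqns I, evalM (s.em t) P = 0) →
      ∃ m : Om ℓ, tᵀ * J (Fin 4) (Om ℓ) * t = m • J (Fin 4) (Om ℓ) := fun t ht => by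
    simp only [← s.sim_iff]
    rw [← map_J (Fin 8) (algebraMap ℚ (Om ℓ))]
    exact (simEqns_iff hJ0 _).1 fun P hP => ht P (simEqns_subset hII hJ0 hIJ hP)
  let T : Submonoid (Matrix ω ω (Om ℓ)) := (imU ρ U).comap s.em
  have hT : ∀ {Z}, s.em Z ∈ tng (imU ρ U) → Z ∈ tng T := fun {Z} hZ => by
    rw [← s.pr_em Z]
    refine tng_lin s.pr s.pr_one (fun t ht => ?_) hZ
    rw [Submonoid.mem_comap, hem (hle ht).2]
    exact ht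
  have h3 : (Matrix.det '' (T : Set (Matrix ω ω (Om ℓ)))).Infinite := by
    refine Set.Infinite.of_image (fun x => x ^ 2) (Set.Infinite.mono ?_ ((det_inf K ρ hmu U).image
      (f := fun u : ℤ_[ℓ]ˣ => toOm ℓ u) (hinj.comp Units.val_injective).injOn))
    rintro _ ⟨_, ⟨σ, hσ, rfl⟩, rfl⟩
    have h1 : (ρ σ : Matrix ν ν ℤ_[ℓ]).map (toOm ℓ) ∈ imU ρ U := ⟨σ, hσ, rfl⟩
    have h2 := hem (hle h1).2
    refine ⟨_, ⟨s.pr ((ρ σ : Matrix ν ν ℤ_[ℓ]).map (toOm ℓ)), ?_, rfl⟩, ?_⟩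
    · rw [SetLike.mem_coe, Submonoid.mem_comap, h2]
      exact h1
    · exact (s.det_em _).symm.trans (by rw [h2, hdet])
  refine Set.Subset.antisymm (MT_sub _ _ hsub) fun g hg => mcl_zcl ρ U ?_
  have hg' := hem hg
  rw [← hg']
  refine mcl_lin s.em.toLinearMap (T := (T : Set (Matrix ω ω (Om ℓ)))) (fun t ht => ht) ?_
  have hg1 : ∀ P ∈ mtEqns I, evalM (s.em (s.pr g)) P = 0 := by
    rw [hg']
    exact hg
  have hg2 : (s.pr (g : Matrix ν ν (Om ℓ))).det ≠ 0 := hde (by rw [hg']; exact g.det_ne_zero)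
  rcases hD with h | ⟨⟨f, hf⟩, hG⟩
  · obtain ⟨m, hm⟩ := hsim _ hg1
    exact gsp_mcl (J_transpose _ _) hd4 _ (fun Z hZ => hT (h Z hZ))
      (fun t ht => ⟨hde (hle ht).1, hsim t (hle ht).2⟩) h3 hg2 hm
  · obtain ⟨e⟩ := Pool.Agent.M4.Det.nonempty_equiv ℓ
    have hs : ∀ k (x : M2 (Om ℓ)), x * x = 0 → s.em (f.u k x) ∈ tng (imU ρ U) →
        Sp (J (Fin 4) (Om ℓ)) (f.u k x) := fun k x hx h =>
      sp_of_sim hd4 (by rw [← map_mul, hx, map_zero]) fun t => hsim _ (by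
        have h1 : s.em (f.u k x) * s.em (f.u k x) = 0 := by
          rw [← map_mul, ← map_mul, hx, map_zero, map_zero]
        rw [map_add, map_one, map_smul]
        exact (mt_closed (tng_exp (tng_mono hle h) h1 t)
          (by rw [mxCube_det_nil h1]; exact one_ne_zero)).2)
    have hm : ∀ {t : Matrix ω ω (Om ℓ)}, (∀ P ∈ mtEqns I, evalM (s.em t) P = 0) → ∃ c, t = f.T c :=
      s.m2 e.toRingHom f hII hsp ha hb hG
        (fun k => ⟨hs k _ bas_sq1 (hf k).1, hs k _ bas_sq2 (hf k).2⟩)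
        fun k => ⟨tng_mono hle (hf k).1, tng_mono hle (hf k).2⟩
    obtain ⟨c, hc⟩ := hm hg1
    rw [hc] at hg2 ⊢
    exact f.cube_mcl _ (fun k => ⟨hT (hf k).1, hT (hf k).2⟩)
      (fun t ht => ⟨hde (hle ht).1, hm (hle ht).2⟩) h3 c hg2

end M8
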