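import Pool.Agent.Lib.MP_33b3f9_ag.M8.IDefA
import Pool.Agent.Lib.MP_33b3f9_ag.M8.MorT
import Pool.Agent.Lib.MP_33b3f9_ag.M4.P.Last

/-!
The Mumford-Tate group lies in the commutant; a Mumford-Tate group that contains a cube.
-/

set_option autoImplicit false

noncomputable section

namespace M8

open Matrix Function Pool.Agent.Lib.MP_33b3f9_ag Pool.Agent.M4.Mx
open scoped Kronecker

section

variable {n : Type} [Fintype n] [DecidableEq n]

/-- Equations saying that `g` commutes with `D`. -/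
def cmEq (D : Matrix n n ℚ) : Set (MvPolynomial (n × n) ℚ) :=
  {P | ∃ i j : n, P = ∑ l, (MvPolynomial.C (D i l) * MvPolynomial.X (l, j) -
    MvPolynomial.X (i, l) * MvPolynomial.C (D l j))}

omit [DecidableEq n] in
theorem cmEq_iff {Ω : Type} [Field Ω] [Algebra ℚ Ω] (D : Matrix n n ℚ) (g : Matrix n n Ω) :
    (∀ P ∈ cmEq D, evalM g P = 0) ↔ Commute (D.map (algebraMap ℚ Ω)) g := by
  have h : ∀ i j, evalM g (∑ l, (MvPolynomial.C (D i l) * MvPolynomial.X (l, j) -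
      MvPolynomial.X (i, l) * MvPolynomial.C (D l j))) =
      (D.map (algebraMap ℚ Ω) * g) i j - (g * D.map (algebraMap ℚ Ω)) i j := by
    intro i j
    simp [evalM, Matrix.mul_apply]
  constructor
  · intro H
    ext i j
    exact sub_eq_zero.1 ((h i j).symm.trans (H _ ⟨i, j, rfl⟩))
  · rintro H P ⟨i, j, rfl⟩
    rw [h, H.eq, sub_self]

theorem cmEq_subset {I : Matrix n n ℝ} {D : Matrix n n ℚ}
    (hD : Commute (D.map (algebraMap ℚ ℝ)) I) : cmEq D ⊆ mtEqns I := by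
  apply Set.subset_sUnion_of_mem
  refine ⟨⟨{ carrier := {g : GL n (AlgebraicClosure ℚ) | Commute
               (D.map (algebraMap ℚ (AlgebraicClosure ℚ))) (g : Matrix n n (AlgebraicClosure ℚ))}
             one_mem' := Commute.one_right _
             mul_mem' := fun ha hb => Commute.mul_right ha hb
             inv_mem' := fun ha => Commute.units_inv_right ha }, ?_⟩, ?_⟩
  · ext g
    exact (cmEq_iff D (g : Matrix n n (AlgebraicClosure ℚ))).symm
  · intro u v _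
    rw [cmEq_iff]
    exact ((Commute.one_right _).smul_right _).add_right (hD.smul_right _)

omit [DecidableEq n] in
theorem spec_comm {Ω : Type} [Field Ω] [Algebra ℚ Ω] {I : Matrix n n ℝ} {D : Matrix n n ℚ}
    (hD : Commute (D.map (algebraMap ℚ ℝ)) I) {A : Subalgebra ℚ ℝ} {I' : Matrix n n A}
    (h : I'.map A.val = I) (φ : A →ₐ[ℚ] Ω) : Commute (D.map (algebraMap ℚ Ω)) (I'.map φ) := by
  have e1 : ∀ {B : Type} [Field B] [Algebra ℚ B] (ψ : A →ₐ[ℚ] B),
      D.map (algebraMap ℚ B) = (D.map (algebraMap ℚ A)).map ψ := fun {B} _ _ ψ => by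
    ext i j
    simp only [Matrix.map_apply, AlgHom.commutes]
  have h2 : D.map (algebraMap ℚ A) * I' = I' * D.map (algebraMap ℚ A) :=
    Matrix.map_injective (f := A.val) Subtype.val_injective (by
      have h3 := hD.eq
      rw [e1 A.val, ← h, ← Matrix.map_mul (f := A.val), ← Matrix.map_mul (f := A.val)] at h3
      exact h3)
  rw [Commute, SemiconjBy, e1 φ, ← Matrix.map_mul (f := φ), ← Matrix.map_mul (f := φ), h2]

end

variable {a b : MZ} {Ω : Type} [Field Ω] [Algebra ℚ Ω] {I : Matrix ν ν ℝ}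

theorem mt_comm {d : MZ} (hd : Commute (zr d) I) {g : Matrix ν ν Ω}
    (hg : ∀ P ∈ mtEqns I, evalM g P = 0) : Commute (zM Ω d) g := by
  rw [← zM_map (algebraMap ℚ Ω)]
  refine (cmEq_iff _ g).1 fun P hP => hg P (cmEq_subset ?_ hP)
  rw [zM_map (algebraMap ℚ ℝ)]
  exact hd

namespace Mor

variable (s : Mor a b Ω)

omit [Algebra ℚ Ω] in
theorem exists_PQ : ∃ (P : Matrix ν ω Ω) (Q : Matrix ω ν Ω), Q * P = 1 ∧
    (∀ x, s.em x * P = P * x) ∧ ∀ x, Q * s.em x = x * Q := by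
  refine ⟨s.S.submatrix id fun i => (i, 0), s.S'.submatrix (fun i => (i, 0)) id, ?_, fun x => ?_,
    fun x => ?_⟩
  · ext i j
    have h := congrFun (congrFun s.inv' (i, 0)) (j, 0)
    simpa [Matrix.mul_apply, one_apply] using h
  · have h : s.em x * s.S = s.S * (x ⊗ₖ (1 : M2 Ω)) := by
      rw [em_apply, Matrix.mul_assoc, s.inv', Matrix.mul_one]
    ext i j
    have h1 := congrFun (congrFun h i) (j, 0)
    rw [Matrix.mul_apply, Matrix.mul_apply, Fintype.sum_prod_type] at h1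
    rw [Matrix.mul_apply, Matrix.mul_apply]
    simpa [one_apply] using h1
  · have h : s.S' * s.em x = (x ⊗ₖ (1 : M2 Ω)) * s.S' := by
      rw [em_apply, ← Matrix.mul_assoc, ← Matrix.mul_assoc, s.inv', Matrix.one_mul]
    ext i j
    have h1 := congrFun (congrFun h (i, 0)) j
    rw [Matrix.mul_apply, Matrix.mul_apply, Fintype.sum_prod_type] at h1
    rw [Matrix.mul_apply, Matrix.mul_apply]
    simpa [one_apply] using h1

theorem case1 (f : Fr ω Ω) (hI : I * I = -1) {n : ℕ} {l : Fin n → ℝ} {X : Fin n → Matrix ν ν ℚ}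
    (hIX : I = ∑ i, l i • (X i).map (algebraMap ℚ ℝ))
    (hX : ∀ i, ∃ Y ∈ f.m, (X i).map (algebraMap ℚ Ω) = s.em Y) {g : Matrix ω ω Ω}
    (hg : ∀ P ∈ mtEqns I, evalM (s.em g) P = 0) : ∃ t, g = f.T t := by
  have : CharZero Ω := algebraRat.charZero Ω
  obtain ⟨P, Q, h0, hP, hQ⟩ := s.exists_PQ
  have h1 : (Q ⊗ₖ Q) * (P ⊗ₖ P) = 1 := by rw [← mul_kronecker_mul, h0, one_kronecker_one]
  have h2 : ∀ x y, (s.em x ⊗ₖ s.em y) * (P ⊗ₖ P) = (P ⊗ₖ P) * (x ⊗ₖ y) := fun x y => by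
    rw [← mul_kronecker_mul, ← mul_kronecker_mul, hP, hP]
  have h3 : ∀ x y, (Q ⊗ₖ Q) * (s.em x ⊗ₖ s.em y) = (x ⊗ₖ y) * (Q ⊗ₖ Q) := fun x y => by
    rw [← mul_kronecker_mul, ← mul_kronecker_mul, hQ, hQ]
  refine f.eq_T (f.rk_of_comm fun k => ?_)
  have h4 : (P ⊗ₖ P) * f.W k * (Q ⊗ₖ Q) * (s.em g ⊗ₖ s.em g) =
      (s.em g ⊗ₖ s.em g) * ((P ⊗ₖ P) * f.W k * (Q ⊗ₖ Q)) := by
    refine comm_desc (fun i => X i ⊗ₖ (1 : Matrix ν ν ℚ) + (1 : Matrix ν ν ℚ) ⊗ₖ X i)
      (fun i => ?_) fun c hc => comm_of_mt hI ?_ hg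
    · obtain ⟨Y, hY, e⟩ := hX i
      rw [mxc1_map, e, ← map_one s.em, Matrix.mul_assoc, Matrix.mul_add, h3, h3, ← Matrix.add_mul,
        ← Matrix.mul_assoc, Matrix.mul_assoc _ (f.W k), f.W_comm hY k, Matrix.mul_assoc (P ⊗ₖ P) (f.W k),
        ← Matrix.mul_assoc _ (P ⊗ₖ P), Matrix.add_mul (s.em Y ⊗ₖ s.em 1), h2, h2, ← Matrix.mul_add]
      simp only [Matrix.mul_assoc]
    · have h5 : I ⊗ₖ (1 : Matrix ν ν ℝ) + (1 : Matrix ν ν ℝ) ⊗ₖ I = ∑ i, l i •
          (X i ⊗ₖ (1 : Matrix ν ν ℚ) + (1 : Matrix ν ν ℚ) ⊗ₖ X i).map (algebraMap ℚ ℝ) := by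
        simp only [mxc1_map]
        rw [hIX]
        ext p q
        simp only [Matrix.add_apply, Matrix.kroneckerMap_apply, Matrix.sum_apply, Matrix.smul_apply,
          smul_eq_mul, Finset.sum_mul, Finset.mul_sum, ← Finset.sum_add_distrib]
        exact Finset.sum_congr rfl fun i _ => by ring
      rw [h5, Finset.sum_mul, Finset.mul_sum]
      refine Finset.sum_congr rfl fun i _ => ?_
      rw [Matrix.smul_mul, Matrix.mul_smul, ← Matrix.map_mul, ← Matrix.map_mul, hc i]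
  have h5 := congrArg (fun z => (Q ⊗ₖ Q) * z * (P ⊗ₖ P)) h4
  simp only [Matrix.mul_assoc] at h5
  rw [h2, ← Matrix.mul_assoc (Q ⊗ₖ Q) (P ⊗ₖ P), ← Matrix.mul_assoc (Q ⊗ₖ Q) (P ⊗ₖ P), h1,
    Matrix.one_mul, Matrix.one_mul, Matrix.mul_one, ← Matrix.mul_assoc (Q ⊗ₖ Q), h3,
    Matrix.mul_assoc, ← Matrix.mul_assoc (Q ⊗ₖ Q), h1, Matrix.one_mul] at h5
  exact h5

theorem case2 (e : ℂ →+* Ω) (h : ∀ Z, Sp (J (Fin 4) Ω) Z → s.em Z ∈ tng (mtMon Ω I)) :
    GEN a b I := by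
  have : CharZero Ω := algebraRat.charZero Ω
  have hE : (J (Fin 4) Ω)ᵀ = -J (Fin 4) Ω := J_transpose _ _
  have hd : (J (Fin 4) Ω).det ≠ 0 := (isUnit_det_J _ _).ne_zero
  intro g hg ha hb P hP
  have h0 : s.em (s.pr (g.map e)) = g.map e := s.em_pr
    (by rw [← zM_map e, Commute, SemiconjBy, ← Matrix.map_mul, ← Matrix.map_mul, ha.eq])
    (by rw [← zM_map e, Commute, SemiconjBy, ← Matrix.map_mul, ← Matrix.map_mul, hb.eq])
  have h1 : s.pr (g.map e) ∈ (mtMon Ω I).comap s.em := by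
    refine sp_gen hE hd _ (fun u c => ?_) ?_
    · have hu := trans_alt hE u
      rw [Submonoid.mem_comap, map_add, map_one, map_smul]
      refine mt_closed (tng_exp (h _ (sqm_sp hE u)) ?_ c) fun h0 => ?_
      · rw [← map_mul, sqm, vecMulVec_mul_vecMulVec, dotProduct_comm, hu, zero_smul, vecMulVec_zero,
          map_zero]
      · have := congrArg Matrix.det (trans_sp hE u hu c)
        rw [← map_one s.em, ← map_smul, ← map_add, det_em, pow_eq_zero_iff two_ne_zero] at h0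
        rw [det_mul, h0, mul_zero] at this
        exact hd this.symm
    · have h2 := (s.sim_iff (s.pr (g.map e)) 1).1 (by
        rw [h0, one_smul, ← map_J (Fin 8) e, ← transpose_map, ← Matrix.map_mul, ← Matrix.map_mul, hg])
      rwa [one_smul] at h2
  rw [Submonoid.mem_comap, h0] at h1
  have h2 := h1.2 P hP
  rwa [evalM_map, map_eq_zero] at h2

/-- The Mumford-Tate group contains the cube and is not generic, so it is the cube. -/
theorem m2 [IsAlgClosed Ω] (e : ℂ →+* Ω) (f : Fr ω Ω) (hI : I * I = -1) (hJ : Sp (J (Fin 8) ℝ) I)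
    (ha : Commute (zr a) I) (hb : Commute (zr b) I) (hG : ¬ GEN a b I)
    (hsp : ∀ k, Sp (J (Fin 4) Ω) (f.u k (bas Ω 1)) ∧ Sp (J (Fin 4) Ω) (f.u k (bas Ω 2)))
    (hc : ∀ k, s.em (f.u k (bas Ω 1)) ∈ tng (mtMon Ω I) ∧
      s.em (f.u k (bas Ω 2)) ∈ tng (mtMon Ω I)) {g : Matrix ω ω Ω}
    (hg : ∀ P ∈ mtEqns I, evalM (s.em g) P = 0) : ∃ t, g = f.T t := by
  have : CharZero Ω := algebraRat.charZero Ω
  obtain ⟨A, I', n, l, X, h1, h2, h3⟩ := comps Ω I
  have hcm : ∀ d : MZ, Commute (zr d) I → ∀ i, Commute (zM Ω d) ((X i).map (algebraMap ℚ Ω)) :=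
    fun d hd i => by
      refine Submodule.span_induction (p := fun Y _ => Commute (zM Ω d) Y) ?_
        (Commute.zero_right _) (fun _ _ _ _ hx hy => hx.add_right hy)
        (fun c _ _ hx => hx.smul_right c) (h3 i)
      rintro _ ⟨φ, rfl⟩
      rw [← zM_map (algebraMap ℚ Ω)]
      refine spec_comm ?_ h1 φ
      rw [zM_map (algebraMap ℚ ℝ)]
      exact hd
  have h0 : ∀ i, s.em (s.pr ((X i).map (algebraMap ℚ Ω))) = (X i).map (algebraMap ℚ Ω) :=
    fun i => s.em_pr (hcm a ha i) (hcm b hb i)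
  by_cases hX : ∀ i, s.pr ((X i).map (algebraMap ℚ Ω)) ∈ f.m
  · exact s.case1 f hI h2 (fun i => ⟨_, hX i, (h0 i).symm⟩) hg
  push Not at hX
  obtain ⟨i, hi⟩ := hX
  refine absurd (s.case2 e fun Z hZ => ?_) hG
  refine lieMax f (isUnit_det_J _ _).ne_zero hsp ((tng (mtMon Ω I)).comap s.em.toLinearMap)
    (fun Y hY Z hZ => ?_) hc ?_ ?_ hi hZ
  · rw [Submodule.mem_comap, AlgHom.toLinearMap_apply, map_sub, map_mul, map_mul]
    exact tng_lie hY hZ
  · rw [Submodule.mem_comap, AlgHom.toLinearMap_apply, h0]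
    exact Submodule.span_le.2 (by rintro _ ⟨φ, rfl⟩; exact spec_tng hI h1 φ) (h3 i)
  · rw [← s.sp_iff, h0]
    refine Submodule.span_induction (p := fun Y _ => Sp (J (Fin 8) Ω) Y) ?_ ?_ ?_ ?_ (h3 i)
    · rintro _ ⟨φ, rfl⟩
      rw [← map_J (Fin 8) (algebraMap ℚ Ω)]
      refine spec_sp ?_ h1 φ
      rwa [map_J]
    · simp [Sp]
    · intro x y _ _ hx hy
      rw [Sp] at hx hy ⊢
      rw [transpose_add, add_mul, mul_add]
      linear_combination (norm := abel) hx + hy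
    · intro c x _ hx
      rw [Sp] at hx ⊢
      rw [transpose_smul, smul_mul_assoc, mul_smul_comm, ← smul_add, hx, smul_zero]

end Mor

end M8
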